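import Pool.Agent.Lib.MP_fce888_co.GE.Stm

set_option autoImplicit false

/-!
# MP_fce888_co, section (G-e): configurations, upper bound for the number of cubic graphs
-/

namespace Pool.Agent.Lib.MP_fce888_co.GE

open Finset
open scoped Classical

/-- fixed point free involutions (as functions) -/
noncomputable def ffi (X : Type) [Fintype X] : Finset (X → X) :=
  univ.filter fun f => ∀ p, f (f p) = p ∧ f p ≠ p

theorem mem_ffi {X : Type} [Fintype X] {f : X → X} : f ∈ ffi X ↔ ∀ p, f (f p) = p ∧ f p ≠ p := by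
  simp [ffi]

/-- there are at most `(2m-1)!!` fixed point free involutions of `2m` points -/
theorem card_ffi_le (m : ℕ) : ∀ (X : Type) [Fintype X], Fintype.card X = 2 * m →
    (ffi X).card ≤ II m := by
  induction m with
  | zero =>
    intro X _ hX
    have : IsEmpty X := Fintype.card_eq_zero_iff.1 (by omega)
    have : Subsingleton (X → X) := inferInstance
    have : (ffi X).card ≤ 1 := card_le_one.2 fun a _ b _ => Subsingleton.elim a b
    simpa [II] using this
  | succ m ih =>
    intro X _ hX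
    have hne : Nonempty X := Fintype.card_pos_iff.1 (by omega)
    obtain ⟨a⟩ := hne
    have hsub : ffi X ⊆ (univ.erase a).biUnion fun b => (ffi X).filter fun f => f a = b := by
      intro f hf
      rw [mem_biUnion]
      refine ⟨f a, mem_erase.2 ⟨((mem_ffi.1 hf) a).2, mem_univ _⟩, mem_filter.2 ⟨hf, rfl⟩⟩
    have hb : ∀ b ∈ univ.erase a, ((ffi X).filter fun f => f a = b).card ≤ II m := by
      intro b hb
      have hba : b ≠ a := (mem_erase.1 hb).1
      have hYc : Fintype.card {x : X // x ≠ a ∧ x ≠ b} = 2 * m := by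
        rw [Fintype.card_subtype]
        have h1 : (univ.filter fun x : X => x ≠ a ∧ x ≠ b) = (univ.erase a).erase b := by
          ext x
          simp only [mem_filter, mem_univ, true_and, mem_erase]
          tauto
        rw [h1, card_erase_of_mem hb, card_erase_of_mem (mem_univ _), card_univ, hX]
        omega
      refine le_trans ?_ (ih {x : X // x ≠ a ∧ x ≠ b} hYc)
      have hval : ∀ f ∈ (ffi X).filter (fun f => f a = b), ∀ x : X, x ≠ a ∧ x ≠ b →
          f x ≠ a ∧ f x ≠ b := by
        intro f hf x hx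
        obtain ⟨h1, h2⟩ := mem_filter.1 hf
        have h3 := mem_ffi.1 h1
        constructor
        · intro h
          apply hx.2
          rw [← (h3 x).1, h, h2]
        · intro h
          apply hx.1
          rw [← (h3 x).1, h, ← h2, (h3 a).1]
      refine card_le_card_of_injOn
        (fun f x => if h : f x.1 ≠ a ∧ f x.1 ≠ b then ⟨f x.1, h⟩ else x) ?_ ?_
      · intro f hf
        have hf' := mem_coe.1 hf
        have h3 := mem_ffi.1 (mem_filter.1 hf').1
        refine mem_coe.2 (mem_ffi.2 ?_)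
        rintro ⟨x, hx⟩
        have h4 := hval f hf' x hx
        have h5 : (if h : f x ≠ a ∧ f x ≠ b then (⟨f x, h⟩ : {x : X // x ≠ a ∧ x ≠ b})
            else ⟨x, hx⟩) = ⟨f x, h4⟩ := dif_pos h4
        have h6 : f (f x) ≠ a ∧ f (f x) ≠ b := by
          rw [(h3 x).1]
          exact hx
        constructor
        · show (if h : f (if h : f x ≠ a ∧ f x ≠ b then (⟨f x, h⟩ : {x : X // x ≠ a ∧ x ≠ b})
              else ⟨x, hx⟩).1 ≠ a ∧ f (if h : f x ≠ a ∧ f x ≠ b then
                (⟨f x, h⟩ : {x : X // x ≠ a ∧ x ≠ b}) else ⟨x, hx⟩).1 ≠ b then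
              (⟨f (if h : f x ≠ a ∧ f x ≠ b then (⟨f x, h⟩ : {x : X // x ≠ a ∧ x ≠ b})
              else ⟨x, hx⟩).1, h⟩ : {x : X // x ≠ a ∧ x ≠ b}) else (if h : f x ≠ a ∧ f x ≠ b then
                (⟨f x, h⟩ : {x : X // x ≠ a ∧ x ≠ b}) else ⟨x, hx⟩)) = ⟨x, hx⟩
          simp only [h5]
          rw [dif_pos h6]
          exact Subtype.ext (h3 x).1
        · show (if h : f x ≠ a ∧ f x ≠ b then (⟨f x, h⟩ : {x : X // x ≠ a ∧ x ≠ b})
            else ⟨x, hx⟩) ≠ ⟨x, hx⟩
          rw [h5]
          intro h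
          exact (h3 x).2 (congrArg Subtype.val h)
      · intro f hf g hg hfg
        have hf' := mem_coe.1 hf
        have hg' := mem_coe.1 hg
        have hf3 := mem_ffi.1 (mem_filter.1 hf').1
        have hg3 := mem_ffi.1 (mem_filter.1 hg').1
        have hfa := (mem_filter.1 hf').2
        have hga := (mem_filter.1 hg').2
        funext x
        by_cases hxa : x = a
        · rw [hxa, hfa, hga]
        · by_cases hxb : x = b
          · rw [hxb, ← hfa, (hf3 a).1, hfa, ← hga, (hg3 a).1]
          · have h4 := hval f hf' x ⟨hxa, hxb⟩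
            have h5 := hval g hg' x ⟨hxa, hxb⟩
            have h6 := congrFun hfg ⟨x, hxa, hxb⟩
            have h7 : (if h : f x ≠ a ∧ f x ≠ b then (⟨f x, h⟩ : {x : X // x ≠ a ∧ x ≠ b})
              else ⟨x, hxa, hxb⟩) = (if h : g x ≠ a ∧ g x ≠ b then
                (⟨g x, h⟩ : {x : X // x ≠ a ∧ x ≠ b}) else ⟨x, hxa, hxb⟩) := h6
            rw [dif_pos h4, dif_pos h5] at h7
            exact congrArg Subtype.val h7
    calc (ffi X).card ≤ _ := card_le_card hsub
      _ ≤ ∑ b ∈ univ.erase a, ((ffi X).filter fun f => f a = b).card := card_biUnion_le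
      _ ≤ ∑ _b ∈ univ.erase a, II m := sum_le_sum hb
      _ = (2 * m + 1) * II m := by
        rw [sum_const, smul_eq_mul, card_erase_of_mem (mem_univ _), card_univ, hX]
        congr 1
      _ = II (m + 1) := by
        rw [II, II, prod_range_succ, mul_comm]

/-- cubic graphs with numbered neighbours -/
abbrev Cfg (V : Type) : Type :=
  Σ G : {G : SimpleGraph V // ∀ v, (G.neighborSet v).ncard = 3}, ∀ v, Fin 3 ≃ G.1.neighborSet v

/-- the configuration of a cubic graph with numbered neighbours -/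
def cfg {V : Type} (D : Cfg V) (p : V × Fin 3) : V × Fin 3 :=
  ((D.2 p.1 p.2).1, (D.2 (D.2 p.1 p.2).1).symm ⟨p.1, (D.2 p.1 p.2).2.symm⟩)

theorem cfg_symm {V : Type} (D : Cfg V) {v v' w : V} (h : v = v') (hw : w ∈ D.1.1.neighborSet v)
    (hw' : w ∈ D.1.1.neighborSet v') : (D.2 v).symm ⟨w, hw⟩ = (D.2 v').symm ⟨w, hw'⟩ := by
  subst h
  rfl

theorem cfg_mem {V : Type} [Fintype V] (D : Cfg V) : cfg D ∈ ffi (V × Fin 3) := by
  rw [mem_ffi]
  rintro ⟨v, i⟩
  constructor
  · have h1 : ((D.2 (D.2 v i).1) ((D.2 (D.2 v i).1).symm ⟨v, (D.2 v i).2.symm⟩)).1 = v := by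
      rw [Equiv.apply_symm_apply]
    refine Prod.ext h1 ?_
    show (D.2 ((D.2 (D.2 v i).1) ((D.2 (D.2 v i).1).symm ⟨v, (D.2 v i).2.symm⟩)).1).symm
      ⟨(D.2 v i).1, _⟩ = i
    rw [cfg_symm D h1 _ (D.2 v i).2]
    show (D.2 v).symm (D.2 v i) = i
    rw [Equiv.symm_apply_apply]
  · intro h
    have h1 : (D.2 v i).1 = v := congrArg Prod.fst h
    have h2 : D.1.1.Adj v (D.2 v i).1 := (D.2 v i).2
    rw [h1] at h2
    exact D.1.1.loopless.irrefl v h2

theorem cfg_inj {V : Type} : Function.Injective (cfg : Cfg V → _) := by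
  rintro ⟨⟨G, hG⟩, e⟩ ⟨⟨G', hG'⟩, e'⟩ h
  have h1 : ∀ v i, (e v i).1 = (e' v i).1 := fun v i => congrArg Prod.fst (congrFun h (v, i))
  have hGG : G = G' := by
    ext v w
    constructor
    · intro hvw
      have h2 : ((e v) ((e v).symm ⟨w, hvw⟩)).1 = w := by rw [Equiv.apply_symm_apply]
      rw [h1] at h2
      have h3 := (e' v ((e v).symm ⟨w, hvw⟩)).2
      rw [h2] at h3
      exact h3
    · intro hvw
      have h2 : ((e' v) ((e' v).symm ⟨w, hvw⟩)).1 = w := by rw [Equiv.apply_symm_apply]
      rw [← h1] at h2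
      have h3 := (e v ((e' v).symm ⟨w, hvw⟩)).2
      rw [h2] at h3
      exact h3
  subst hGG
  have hee : e = e' := by
    funext v
    ext i
    exact h1 v i
  rw [hee]

theorem card_Cfg (V : Type) [Fintype V] :
    Fintype.card (Cfg V) = (cubs V).card * 6 ^ Fintype.card V := by
  rw [Fintype.card_sigma]
  have h1 : ∀ G : {G : SimpleGraph V // ∀ v, (G.neighborSet v).ncard = 3},
      Fintype.card (∀ v, Fin 3 ≃ G.1.neighborSet v) = 6 ^ Fintype.card V := by
    intro G
    rw [Fintype.card_pi]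
    have h2 : ∀ v : V, Fintype.card (Fin 3 ≃ G.1.neighborSet v) = 6 := by
      intro v
      have h3 : Fintype.card (G.1.neighborSet v) = 3 := by
        rw [← Nat.card_eq_fintype_card]
        exact G.2 v
      have h4 : Fintype.card (Fin 3) = Fintype.card (G.1.neighborSet v) := by
        rw [h3, Fintype.card_fin]
      rw [Fintype.card_equiv (Fintype.equivOfCardEq h4), Fintype.card_fin]
      rfl
    rw [prod_congr rfl (fun v _ => h2 v), prod_const, card_univ]
  rw [sum_congr rfl (fun G _ => h1 G), sum_const, smul_eq_mul, card_univ, Fintype.card_subtype]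
  rfl

theorem conf_gen (V : Type) [Fintype V] (k : ℕ) (hV : Fintype.card V = 2 * k) :
    (cubs V).card * 36 ^ k ≤ II (3 * k) := by
  have h1 : Fintype.card (V × Fin 3) = 2 * (3 * k) := by
    rw [Fintype.card_prod, Fintype.card_fin, hV]
    ring
  have h2 := card_ffi_le (3 * k) (V × Fin 3) h1
  have h3 : Fintype.card (Cfg V) ≤ (ffi (V × Fin 3)).card := by
    rw [← card_univ]
    exact card_le_card_of_injOn cfg (fun D _ => mem_coe.2 (cfg_mem D)) (cfg_inj.injOn)
  have h5 := card_Cfg V
  have h6 : (6 : ℕ) ^ (2 * k) = 36 ^ k := by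
    rw [pow_mul]
    norm_num
  rw [hV, h6] at h5
  rw [← h5]
  exact h3.trans h2

theorem p_Conf : S_Conf := by
  intro k
  have h := conf_gen (Fin (2 * k)) k (Fintype.card_fin _)
  unfold c
  exact h

end Pool.Agent.Lib.MP_fce888_co.GE
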