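import Pool.Agent.Lib.MP_fce888_co.GE.Stm

set_option autoImplicit false

/-!
# MP_fce888_co, section (G-e), piece Ins
-/

namespace Pool.Agent.Lib.MP_fce888_co.GE

open Finset
open scoped Classical

/-- adjacency after inserting an edge between the subdivided edges `e`, `f` -/
private def insAdj {W : Type} (H : SimpleGraph W) (e f : Sym2 W) :
    Option (Option W) → Option (Option W) → Prop
  | none, none => False
  | none, some none => True
  | none, some (some w) => w ∈ e
  | some none, none => True
  | some none, some none => False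
  | some none, some (some w) => w ∈ f
  | some (some w), none => w ∈ e
  | some (some w), some none => w ∈ f
  | some (some w), some (some w') => H.Adj w w' ∧ s(w, w') ≠ e ∧ s(w, w') ≠ f

private theorem insAdj_symm {W : Type} (H : SimpleGraph W) (e f : Sym2 W) :
    ∀ a b, insAdj H e f a b → insAdj H e f b a := by
  intro a b
  rcases a with _ | _ | w <;> rcases b with _ | _ | w' <;> simp only [insAdj] <;> try exact id
  rintro ⟨h1, h2, h3⟩
  exact ⟨h1.symm, by rw [Sym2.eq_swap]; exact h2, by rw [Sym2.eq_swap]; exact h3⟩

private theorem insAdj_irrefl {W : Type} (H : SimpleGraph W) (e f : Sym2 W) :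
    ∀ a, ¬ insAdj H e f a a := by
  intro a
  rcases a with _ | _ | w <;> simp only [insAdj, not_false_eq_true]
  exact fun h => H.loopless.irrefl w h.1

/-- the graph after inserting an edge -/
private def ins {W : Type} (H : SimpleGraph W) (e f : Sym2 W) : SimpleGraph (Option (Option W)) where
  Adj := insAdj H e f
  symm := ⟨insAdj_symm H e f⟩
  loopless := ⟨insAdj_irrefl H e f⟩

private theorem card_edges {W : Type} [Fintype W] (k : ℕ) (hW : Fintype.card W = 2 * k)
    (H : SimpleGraph W) (hH : ∀ v, (H.neighborSet v).ncard = 3) :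
    (univ.filter fun e : Sym2 W => e ∈ H.edgeSet).card = 3 * k := by
  have h1 := H.sum_degrees_eq_twice_card_edges
  have h2 : ∀ v, H.degree v = 3 := by
    intro v
    rw [← hH v, Set.ncard_eq_toFinset_card', ← SimpleGraph.card_neighborSet_eq_degree,
      Set.toFinset_card]
  rw [Finset.sum_congr rfl (fun v _ => h2 v)] at h1
  simp only [sum_const, card_univ, hW, smul_eq_mul] at h1
  have h3 : (univ.filter fun e : Sym2 W => e ∈ H.edgeSet) = H.edgeFinset := by
    ext e
    simp
  rw [h3]
  omega

private theorem edge_of_mem {W : Type} {H : SimpleGraph W} {e : Sym2 W} (he : e ∈ H.edgeSet)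
    {w : W} (hw : w ∈ e) : ∃ w', H.Adj w w' ∧ s(w, w') = e := by
  obtain ⟨w', rfl⟩ := Sym2.mem_iff_exists.1 hw
  exact ⟨w', he, rfl⟩

private theorem ncard_edge {W : Type} {H : SimpleGraph W} {e : Sym2 W} (he : e ∈ H.edgeSet)
    (c : Option (Option W)) (hc : ∀ w : W, some (some w) ≠ c) :
    (insert c ((fun w : W => some (some w)) '' {w | w ∈ e}) : Set (Option (Option W))).ncard = 3 := by
  induction e using Sym2.ind with
  | _ a b =>
    have hab : a ≠ b := by
      rintro rfl
      exact H.loopless.irrefl _ he
    have h1 : ((fun w : W => some (some w)) '' {w | w ∈ s(a, b)} : Set (Option (Option W))) =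
        {some (some a), some (some b)} := by
      ext z
      simp only [Set.mem_image, Set.mem_ofPred_eq, Sym2.mem_iff, Set.mem_insert_iff,
        Set.mem_singleton_iff]
      constructor
      · rintro ⟨w, rfl | rfl, rfl⟩
        · exact Or.inl rfl
        · exact Or.inr rfl
      · rintro (rfl | rfl)
        · exact ⟨a, Or.inl rfl, rfl⟩
        · exact ⟨b, Or.inr rfl, rfl⟩
    rw [h1]
    apply Set.ncard_eq_three.2
    exact ⟨c, some (some a), some (some b), (hc a).symm, (hc b).symm, by simpa using hab, rfl⟩

private theorem ins_cubic {W : Type} [Fintype W] (H : SimpleGraph W)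
    (hH : ∀ v, (H.neighborSet v).ncard = 3) (e f : Sym2 W) (he : e ∈ H.edgeSet)
    (hf : f ∈ H.edgeSet) (hne : e ≠ f) : ∀ v, ((ins H e f).neighborSet v).ncard = 3 := by
  intro v
  rcases v with _ | _ | w
  · rw [← ncard_edge he (some none) (by simp)]
    congr 1
    ext z
    rcases z with _ | _ | w <;> simp [SimpleGraph.mem_neighborSet, ins, insAdj]
  · rw [← ncard_edge hf none (by simp)]
    congr 1
    ext z
    rcases z with _ | _ | w <;> simp [SimpleGraph.mem_neighborSet, ins, insAdj]
  · let g : W → Option (Option W) := fun w' =>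
      if s(w, w') = e then none else if s(w, w') = f then some none else some (some w')
    have hg : Set.InjOn g (H.neighborSet w) := by
      intro a _ b _ hab
      simp only [g] at hab
      by_cases h1 : s(w, a) = e
      · by_cases h2 : s(w, b) = e
        · rw [← h2] at h1
          exact Sym2.congr_right.1 h1
        · rw [if_pos h1, if_neg h2] at hab
          split_ifs at hab
      · rw [if_neg h1] at hab
        by_cases h2 : s(w, a) = f
        · rw [if_pos h2] at hab
          by_cases h3 : s(w, b) = f
          · rw [← h3] at h2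
            exact Sym2.congr_right.1 h2
          · rw [if_neg h3] at hab
            split_ifs at hab
            exact absurd hab (by simp)
        · rw [if_neg h2] at hab
          split_ifs at hab
          · exact absurd hab (by simp)
          · exact Option.some_injective _ (Option.some_injective _ hab)
    have h1 : (ins H e f).neighborSet (some (some w)) = g '' H.neighborSet w := by
      ext z
      rw [Set.mem_image, SimpleGraph.mem_neighborSet]
      constructor
      · intro hz
        rcases z with _ | _ | w'
        · have hz' : w ∈ e := hz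
          obtain ⟨w', h1, h2⟩ := edge_of_mem he hz'
          exact ⟨w', h1, by simp only [g]; rw [if_pos h2]⟩
        · have hz' : w ∈ f := hz
          obtain ⟨w', h1, h2⟩ := edge_of_mem hf hz'
          refine ⟨w', h1, ?_⟩
          simp only [g]
          rw [if_neg (by rw [h2]; exact hne.symm), if_pos h2]
        · have hz' : H.Adj w w' ∧ s(w, w') ≠ e ∧ s(w, w') ≠ f := hz
          refine ⟨w', hz'.1, ?_⟩
          simp only [g]
          rw [if_neg hz'.2.1, if_neg hz'.2.2]
      · rintro ⟨w', h1, rfl⟩
        simp only [g]
        split_ifs with h2 h3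
        · show w ∈ e
          rw [← h2]
          exact Sym2.mem_mk_left w w'
        · show w ∈ f
          rw [← h3]
          exact Sym2.mem_mk_left w w'
        · exact ⟨h1, h2, h3⟩
    rw [h1, hg.ncard_image, hH w]

private theorem ins_inj {W : Type} (H H' : SimpleGraph W) (e f e' f' : Sym2 W)
    (he : e ∈ H.edgeSet) (hf : f ∈ H.edgeSet) (he' : e' ∈ H'.edgeSet) (hf' : f' ∈ H'.edgeSet)
    (h : ins H e f = ins H' e' f') : H = H' ∧ e = e' ∧ f = f' := by
  have hadj : ∀ a b, insAdj H e f a b ↔ insAdj H' e' f' a b := by
    intro a b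
    have := congrFun (congrFun (congrArg SimpleGraph.Adj h) a) b
    exact iff_of_eq this
  have h1 : e = e' := by
    apply Sym2.ext
    intro w
    exact hadj none (some (some w))
  have h2 : f = f' := by
    apply Sym2.ext
    intro w
    exact hadj (some none) (some (some w))
  subst h1
  subst h2
  refine ⟨?_, rfl, rfl⟩
  ext w w'
  have h3 := hadj (some (some w)) (some (some w'))
  simp only [insAdj] at h3
  by_cases h4 : s(w, w') = e
  · rw [← SimpleGraph.mem_edgeSet, ← SimpleGraph.mem_edgeSet, h4]
    exact ⟨fun _ => he', fun _ => he⟩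
  · by_cases h5 : s(w, w') = f
    · rw [← SimpleGraph.mem_edgeSet, ← SimpleGraph.mem_edgeSet, h5]
      exact ⟨fun _ => hf', fun _ => hf⟩
    · constructor
      · intro h6
        exact (h3.1 ⟨h6, h4, h5⟩).1
      · intro h6
        exact (h3.2 ⟨h6, h4, h5⟩).1

theorem p_Ins : S_Ins := by
  intro W _ k hW
  let ES : SimpleGraph W → Finset (Sym2 W) := fun H => univ.filter fun e => e ∈ H.edgeSet
  let S : Finset (Σ _ : SimpleGraph W, Sym2 W × Sym2 W) := (cubs W).sigma fun H => (ES H).offDiag
  have memcubs : ∀ H : SimpleGraph W, H ∈ cubs W ↔ ∀ v, (H.neighborSet v).ncard = 3 := by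
    intro H
    simp [cubs]
  have hS : S.card = (cubs W).card * (3 * k * (3 * k - 1)) := by
    rw [Finset.card_sigma, Finset.sum_congr rfl (g := fun _ => 3 * k * (3 * k - 1)),
      Finset.sum_const, smul_eq_mul]
    intro H hH
    rw [Finset.offDiag_card, card_edges k hW H ((memcubs H).1 hH), Nat.mul_sub_one]
  rw [← hS]
  apply Finset.card_le_card_of_injOn (fun p => ins p.1 p.2.1 p.2.2)
  · rintro ⟨H, e, f⟩ hp
    rw [Finset.mem_coe, Finset.mem_sigma, Finset.mem_offDiag] at hp
    simp only [ES, Finset.mem_filter, Finset.mem_univ, true_and] at hp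
    rw [Finset.mem_coe, Finset.mem_filter]
    refine ⟨?_, trivial⟩
    simp only [cubs, Finset.mem_filter, Finset.mem_univ, true_and]
    exact ins_cubic H ((memcubs H).1 hp.1) e f hp.2.1 hp.2.2.1 hp.2.2.2
  · rintro ⟨H, e, f⟩ hp ⟨H', e', f'⟩ hp' h
    rw [Finset.mem_coe, Finset.mem_sigma, Finset.mem_offDiag] at hp hp'
    simp only [ES, Finset.mem_filter, Finset.mem_univ, true_and] at hp hp'
    obtain ⟨rfl, rfl, rfl⟩ := ins_inj H H' e f e' f' hp.2.1 hp.2.2.1 hp'.2.1 hp'.2.2.1 h
    rfl

end Pool.Agent.Lib.MP_fce888_co.GE
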