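import Pool.Agent.Lib.MP_fce888_co.GE.Stm

set_option autoImplicit false

/-! # MP_fce888_co, section (G-e), piece Rec (helper1): double counting of the pairs (G, y), G.Adj none y -/

namespace Pool.Agent.Lib.MP_fce888_co.GE

open Finset
open scoped Classical

namespace RecAux

lemma mem_cubs {V : Type} [Fintype V] (G : SimpleGraph V) :
    G ∈ cubs V ↔ ∀ v, (G.neighborSet v).ncard = 3 := by
  unfold cubs
  rw [mem_filter]
  exact ⟨fun h => h.2, fun h => ⟨mem_univ _, h⟩⟩

lemma comap_cubs {V : Type} [Fintype V] (s : Equiv.Perm V) (G : SimpleGraph V) (h : G ∈ cubs V) :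
    G.comap s ∈ cubs V := by
  rw [mem_cubs] at h ⊢
  intro v
  have h1 : (G.comap s).neighborSet v = s ⁻¹' (G.neighborSet (s v)) := by
    ext w
    simp [SimpleGraph.mem_neighborSet]
  rw [h1]
  have h2 := h (s v)
  rw [Set.ncard_preimage_of_injective_subset_range s.injective] 
  · exact h2
  · intro x _
    exact s.surjective x

lemma card_perm {V : Type} [Fintype V] (s : Equiv.Perm V) (a b : V) :
    ((cubs V).filter fun G => G.Adj a b).card = ((cubs V).filter fun G => G.Adj (s a) (s b)).card := by
  refine Finset.card_bij' (fun G _ => G.comap s.symm) (fun G _ => G.comap s) ?_ ?_ ?_ ?_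
  · intro G hG
    rw [mem_filter] at hG ⊢
    refine ⟨comap_cubs s.symm G hG.1, ?_⟩
    rw [SimpleGraph.comap_adj]
    simpa using hG.2
  · intro G hG
    rw [mem_filter] at hG ⊢
    refine ⟨comap_cubs s G hG.1, ?_⟩
    rw [SimpleGraph.comap_adj]
    exact hG.2
  · intro G _
    ext u v
    simp [SimpleGraph.comap_adj]
  · intro G _
    ext u v
    simp [SimpleGraph.comap_adj]

lemma sum_adj {V : Type} [Fintype V] (a : V) :
    ∑ y : V, ((cubs V).filter fun G => G.Adj a y).card = 3 * (cubs V).card := by
  have h1 : ∀ y : V, ((cubs V).filter fun G => G.Adj a y).card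
      = ∑ G ∈ cubs V, if G.Adj a y then 1 else 0 := by
    intro y
    rw [Finset.card_filter]
  rw [Finset.sum_congr rfl (fun y _ => h1 y), Finset.sum_comm]
  have h2 : ∀ G ∈ cubs V, (∑ y : V, if G.Adj a y then 1 else 0) = 3 := by
    intro G hG
    rw [← Finset.card_filter]
    rw [mem_cubs] at hG
    rw [← hG a]
    rw [← Set.ncard_coe_finset]
    congr 1
    ext w
    simp
  rw [Finset.sum_congr rfl h2, Finset.sum_const, smul_eq_mul, mul_comm]

end RecAux

open RecAux in
theorem p_Rec (hE : S_Equiv) (hI : S_Ins) : S_Rec := by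
  intro k
  have h1 := hI (Fin (2 * k)) k (by simp)
  have h2 : (cubs (Option (Option (Fin (2 * k))))).card = c (2 * k + 2) := by
    unfold c
    apply hE
    simp
  have h3 : ∀ y : Option (Option (Fin (2 * k))), y ≠ none →
      ((cubs (Option (Option (Fin (2 * k))))).filter fun G => G.Adj none y).card
        = ((cubs (Option (Option (Fin (2 * k))))).filter fun G => G.Adj none (some none)).card := by
    intro y hy
    have h := card_perm (Equiv.swap y (some none)) none y
    rw [Equiv.swap_apply_left, Equiv.swap_apply_of_ne_of_ne (Ne.symm hy) (by simp)] at h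
    exact h
  have h4 := sum_adj (V := Option (Option (Fin (2 * k)))) none
  have h5 : ((cubs (Option (Option (Fin (2 * k))))).filter fun G => G.Adj none none).card = 0 := by
    rw [Finset.card_eq_zero, Finset.filter_eq_empty_iff]
    intro G _ h
    exact G.irrefl h
  rw [Fintype.sum_option, h5, Finset.sum_congr rfl (fun y _ => h3 (some y) (by simp)),
    Finset.sum_const, Finset.card_univ, smul_eq_mul, zero_add, h2] at h4
  have h6 : Fintype.card (Option (Fin (2 * k))) = 2 * k + 1 := by simp
  rw [h6] at h4
  calc (2 * k + 1) * (c (2 * k) * (3 * k * (3 * k - 1)))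
      ≤ (2 * k + 1) * ((cubs (Option (Option (Fin (2 * k))))).filter
          fun G => G.Adj none (some none)).card := Nat.mul_le_mul_left _ h1
    _ = 3 * c (2 * k + 2) := h4

end Pool.Agent.Lib.MP_fce888_co.GE
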