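import Pool.Agent.Lib.MP_fce888_co.GE.Stm

set_option autoImplicit false

/-!
# MP_fce888_co, section (G-e), piece Split: disconnected cubic graphs
-/

namespace Pool.Agent.Lib.MP_fce888_co.GE

open Finset
open scoped Classical

private theorem split_mem {V : Type} [Fintype V] (G : SimpleGraph V) :
    G ∈ cubs V ↔ ∀ v, (G.neighborSet v).ncard = 3 := by
  unfold cubs
  rw [mem_filter]
  exact ⟨fun h => h.2, fun h => ⟨mem_univ _, h⟩⟩

/-- the graph induced on a subset without outgoing edges is cubic -/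
private theorem split_cub {n : ℕ} (G : SimpleGraph (Fin n)) (P : Fin n → Prop)
    (hG : ∀ v, (G.neighborSet v).ncard = 3) (hP : ∀ a b, P a → G.Adj a b → P b) :
    ∀ v : {x // P x}, ((G.comap (Subtype.val : {x // P x} → Fin n)).neighborSet v).ncard = 3 := by
  intro v
  have h1 : (Subtype.val : {x // P x} → Fin n) ''
      ((G.comap (Subtype.val : {x // P x} → Fin n)).neighborSet v) = G.neighborSet v.1 := by
    ext w
    simp only [Set.mem_image, SimpleGraph.mem_neighborSet, SimpleGraph.comap_adj]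
    constructor
    · rintro ⟨x, hx, rfl⟩
      exact hx
    · intro hw
      exact ⟨⟨w, hP v.1 w v.2 hw⟩, hw, rfl⟩
  rw [← hG v.1, ← h1, Set.ncard_image_of_injective _ Subtype.val_injective]

private theorem split_fix (hE : S_Equiv) (n : ℕ) (S : Finset (Fin n)) :
    ((cubs (Fin n)).filter fun G => ∀ a ∈ S, ∀ b ∉ S, ¬ G.Adj a b).card ≤
      c S.card * c (n - S.card) := by
  have hA : (cubs {x // x ∈ S}).card = c S.card := by
    unfold c
    refine hE _ _ ?_
    rw [Fintype.card_fin, Fintype.card_coe]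
  have hB : (cubs {x // x ∉ S}).card = c (n - S.card) := by
    unfold c
    refine hE _ _ ?_
    rw [Fintype.card_fin, Fintype.card_subtype_compl, Fintype.card_fin, Fintype.card_coe]
  rw [← hA, ← hB, ← card_product]
  refine card_le_card_of_injOn
    (fun G => (G.comap (Subtype.val : {x // x ∈ S} → Fin n),
      G.comap (Subtype.val : {x // x ∉ S} → Fin n))) ?_ ?_
  · intro G hG
    rw [mem_coe, mem_filter] at hG
    obtain ⟨h1, h2⟩ := hG
    have h1' := (split_mem G).1 h1
    rw [mem_coe, mem_product]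
    refine ⟨(split_mem _).2 ?_, (split_mem _).2 ?_⟩
    · refine split_cub G (fun x => x ∈ S) h1' fun a b ha hab => ?_
      by_contra hb
      exact h2 a ha b hb hab
    · refine split_cub G (fun x => x ∉ S) h1' fun a b ha hab hb => ?_
      exact h2 b hb a ha hab.symm
  · intro G hG G' hG' he
    rw [mem_coe, mem_filter] at hG hG'
    rw [Prod.mk.injEq] at he
    obtain ⟨e1, e2⟩ := he
    ext a b
    by_cases ha : a ∈ S
    · by_cases hb : b ∈ S
      · have h1 : (G.comap (Subtype.val : {x // x ∈ S} → Fin n)).Adj ⟨a, ha⟩ ⟨b, hb⟩ ↔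
            (G'.comap (Subtype.val : {x // x ∈ S} → Fin n)).Adj ⟨a, ha⟩ ⟨b, hb⟩ := by
          rw [e1]
        exact h1
      · exact ⟨fun h => absurd h (hG.2 a ha b hb), fun h => absurd h (hG'.2 a ha b hb)⟩
    · by_cases hb : b ∈ S
      · exact ⟨fun h => absurd h.symm (hG.2 b hb a ha), fun h => absurd h.symm (hG'.2 b hb a ha)⟩
      · have h1 : (G.comap (Subtype.val : {x // x ∉ S} → Fin n)).Adj ⟨a, ha⟩ ⟨b, hb⟩ ↔
            (G'.comap (Subtype.val : {x // x ∉ S} → Fin n)).Adj ⟨a, ha⟩ ⟨b, hb⟩ := by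
          rw [e2]
        exact h1

private theorem split_ex (n : ℕ) (hn : 0 < n) (G : SimpleGraph (Fin n)) (hG : ¬ G.Connected) :
    ∃ S : Finset (Fin n), 1 ≤ S.card ∧ S.card ≤ n / 2 ∧ ∀ a ∈ S, ∀ b ∉ S, ¬ G.Adj a b := by
  obtain ⟨v, w, hvw⟩ : ∃ v w, ¬ G.Reachable v w := by
    by_contra h
    push Not at h
    have : Nonempty (Fin n) := ⟨⟨0, hn⟩⟩
    exact hG ⟨h⟩
  obtain ⟨S, hS⟩ : ∃ S, S = univ.filter fun x => G.Reachable v x := ⟨_, rfl⟩
  have mS : ∀ x, x ∈ S ↔ G.Reachable v x := by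
    intro x
    rw [hS, mem_filter]
    exact ⟨fun h => h.2, fun h => ⟨mem_univ _, h⟩⟩
  have h1 : 0 < S.card := card_pos.2 ⟨v, (mS v).2 (SimpleGraph.Reachable.refl v)⟩
  have h2 : 0 < Sᶜ.card := card_pos.2 ⟨w, mem_compl.2 fun h => hvw ((mS w).1 h)⟩
  have h3 : S.card + Sᶜ.card = n := by
    rw [card_add_card_compl, Fintype.card_fin]
  have h4 : ∀ a ∈ S, ∀ b ∉ S, ¬ G.Adj a b := by
    intro a ha b hb hab
    exact hb ((mS b).2 (((mS a).1 ha).trans hab.reachable))
  rcases le_total S.card Sᶜ.card with h | h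
  · exact ⟨S, h1, by omega, h4⟩
  · refine ⟨Sᶜ, h2, by omega, ?_⟩
    intro a ha b hb hab
    rw [mem_compl] at ha
    rw [mem_compl, not_not] at hb
    exact h4 b hb a ha hab.symm

theorem p_Split (hE : S_Equiv) : S_Split := by
  intro n hn
  have h1 : ((cubs (Fin n)).filter fun G => ¬ G.Connected) ⊆
      (Icc 1 (n / 2)).biUnion fun s => (powersetCard s (univ : Finset (Fin n))).biUnion fun S =>
        (cubs (Fin n)).filter fun G => ∀ a ∈ S, ∀ b ∉ S, ¬ G.Adj a b := by
    intro G hG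
    rw [mem_filter] at hG
    obtain ⟨S, h1, h2, h3⟩ := split_ex n hn G hG.2
    rw [mem_biUnion]
    refine ⟨S.card, mem_Icc.2 ⟨h1, h2⟩, ?_⟩
    rw [mem_biUnion]
    exact ⟨S, mem_powersetCard.2 ⟨subset_univ _, rfl⟩, mem_filter.2 ⟨hG.1, h3⟩⟩
  refine (card_le_card h1).trans (card_biUnion_le.trans (sum_le_sum fun s _ => ?_))
  refine card_biUnion_le.trans ?_
  have h2 : ∀ S ∈ powersetCard s (univ : Finset (Fin n)),
      ((cubs (Fin n)).filter fun G => ∀ a ∈ S, ∀ b ∉ S, ¬ G.Adj a b).card ≤ c s * c (n - s) := by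
    intro S hS
    have h3 := split_fix hE n S
    rw [(mem_powersetCard.1 hS).2] at h3
    exact h3
  refine (sum_le_sum h2).trans ?_
  rw [sum_const, card_powersetCard, card_univ, Fintype.card_fin, smul_eq_mul]

end Pool.Agent.Lib.MP_fce888_co.GE
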