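import Pool.Agent.Lib.MP_fce888_co.GE.P_Num
import Pool.Agent.Lib.MP_fce888_co.GE.P_Conf
import Pool.Agent.Lib.MP_fce888_co.GE.P_Ins
import Pool.Agent.Lib.MP_fce888_co.GE.P_Rec
import Pool.Agent.Lib.MP_fce888_co.GE.P_Split
import Pool.Agent.Lib.MP_fce888_co.G.Final

set_option autoImplicit false

namespace Pool.Agent.Lib.MP_fce888_co.GE

open Finset
open scoped Classical

/-- (G-e), own form -/
theorem sConn : S_Conn := final p_Conf (p_Rec p_Equiv p_Ins) (p_Split p_Equiv)

/-- (G-e), the form used in section G -/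
theorem conn : G.S_conn := by
  have h := sConn
  unfold S_Conn at h
  unfold G.S_conn
  filter_upwards [h] with j hj
  exact ⟨hj.1, hj.2⟩

/-- Section G is complete. -/
theorem gStatement : GStatement := G.G_of_conn conn

end Pool.Agent.Lib.MP_fce888_co.GE
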