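import Pool.Agent.Lib.MP_fce888_co.GE.Stm

set_option autoImplicit false

namespace Pool.Agent.Lib.MP_fce888_co.GE

open Finset
open scoped Classical

theorem mem_cubs {V : Type} [Fintype V] (G : SimpleGraph V) :
    G ∈ cubs V ↔ ∀ v, (G.neighborSet v).ncard = 3 := by
  simp [cubs]

theorem degree_of_mem {V : Type} [Fintype V] {G : SimpleGraph V} (h : G ∈ cubs V) (v : V) :
    G.degree v = 3 := by
  have := (mem_cubs G).1 h v
  rw [← this, Set.ncard_eq_toFinset_card', ← SimpleGraph.neighborFinset, SimpleGraph.card_neighborFinset_eq_degree]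

/-- handshake -/
theorem edges_of_mem {V : Type} [Fintype V] {G : SimpleGraph V} (h : G ∈ cubs V) :
    3 * Fintype.card V = 2 * G.edgeFinset.card := by
  have h1 := G.sum_degrees_eq_twice_card_edges
  simp only [degree_of_mem h, Finset.sum_const, Finset.card_univ, smul_eq_mul] at h1
  omega

theorem p_Odd : S_Odd := by
  intro V _ hodd
  rw [Finset.card_eq_zero, Finset.eq_empty_iff_forall_notMem]
  intro G hG
  have := edges_of_mem hG
  obtain ⟨m, hm⟩ := hodd
  omega

theorem p_Small : S_Small := by
  intro V _ h0 h3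
  rw [Finset.card_eq_zero, Finset.eq_empty_iff_forall_notMem]
  intro G hG
  obtain ⟨v⟩ := Fintype.card_pos_iff.1 h0
  have h1 := degree_of_mem hG v
  have h2 := G.degree_lt_card_verts v
  omega

theorem p_Equiv : S_Equiv := by
  intro V W _ _ hVW
  have e : V ≃ W := Fintype.equivOfCardEq hVW
  refine Finset.card_bij' (fun G _ => G.map e.toEmbedding) (fun G _ => G.map e.symm.toEmbedding) ?_ ?_ ?_ ?_
  · intro G hG
    rw [mem_cubs] at hG ⊢
    intro w
    rw [← hG (e.symm w)]
    have : (G.map e.toEmbedding).neighborSet w = e '' (G.neighborSet (e.symm w)) := by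
      ext x
      simp only [SimpleGraph.mem_neighborSet, SimpleGraph.map_adj, Set.mem_image]
      constructor
      · rintro ⟨u, v, huv, rfl, rfl⟩
        refine ⟨v, ?_, rfl⟩
        simpa using huv
      · rintro ⟨v, hv, rfl⟩
        exact ⟨e.symm w, v, hv, by simp, rfl⟩
    rw [this, Set.ncard_image_of_injective _ e.injective]
  · intro G hG
    rw [mem_cubs] at hG ⊢
    intro w
    rw [← hG (e w)]
    have : (G.map e.symm.toEmbedding).neighborSet w = e.symm '' (G.neighborSet (e w)) := by
      ext x
      simp only [SimpleGraph.mem_neighborSet, SimpleGraph.map_adj, Set.mem_image]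
      constructor
      · rintro ⟨u, v, huv, rfl, rfl⟩
        refine ⟨v, ?_, rfl⟩
        simpa using huv
      · rintro ⟨v, hv, rfl⟩
        exact ⟨e w, v, hv, by simp, rfl⟩
    rw [this, Set.ncard_image_of_injective _ e.symm.injective]
  · intro G _
    ext a b
    simp only [SimpleGraph.map_adj]
    constructor
    · rintro ⟨u, v, ⟨a', b', h, rfl, rfl⟩, rfl, rfl⟩
      simpa using h
    · intro h
      exact ⟨e a, e b, ⟨a, b, h, rfl, rfl⟩, by simp, by simp⟩
  · intro G _
    ext a b
    simp only [SimpleGraph.map_adj]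
    constructor
    · rintro ⟨u, v, ⟨a', b', h, rfl, rfl⟩, rfl, rfl⟩
      simpa using h
    · intro h
      exact ⟨e.symm a, e.symm b, ⟨a, b, h, rfl, rfl⟩, by simp, by simp⟩

theorem c_eq (V : Type) [Fintype V] : (cubs V).card = c (Fintype.card V) :=
  p_Equiv V (Fin (Fintype.card V)) (by simp)

/-- `K_4` -/
theorem c_four : 0 < c 4 := by
  unfold c
  rw [Finset.card_pos]
  refine ⟨⊤, ?_⟩
  rw [mem_cubs]
  intro v
  have h : (⊤ : SimpleGraph (Fin 4)).neighborSet v = {v}ᶜ := by
    ext w; simp [eq_comm]
  rw [h, Set.ncard_eq_toFinset_card', Set.toFinset_compl, Finset.card_compl]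
  simp

theorem c_pos (hR : S_Rec) : ∀ k, 2 ≤ k → 0 < c (2 * k) := by
  intro k hk
  induction k, hk using Nat.le_induction with
  | base => exact c_four
  | succ k hk ih =>
    have h := hR k
    have h1 : 0 < (2 * k + 1) * (c (2 * k) * (3 * k * (3 * k - 1))) := by
      have : 0 < 3 * k - 1 := by omega
      have : 0 < k := by omega
      positivity
    have h2 : 2 * (k + 1) = 2 * k + 2 := by ring
    rw [h2]
    omega

end Pool.Agent.Lib.MP_fce888_co.GE
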