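import Pool.Agent.Lib.MP_fce888_co.GE.P_Base

set_option autoImplicit false

namespace Pool.Agent.Lib.MP_fce888_co.GE

open Finset
open scoped Classical

theorem II_succ (k : ℕ) : II (k + 1) = II k * (2 * k + 1) := by
  simp [II, Finset.prod_range_succ]

theorem II_pos (k : ℕ) : 0 < II k := by
  unfold II
  exact Finset.prod_pos fun i _ => by positivity

theorem II_add_three (k : ℕ) :
    II (3 * (k + 1)) = II (3 * k) * ((6 * k + 1) * (6 * k + 3) * (6 * k + 5)) := by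
  have h : 3 * (k + 1) = 3 * k + 1 + 1 + 1 := by ring
  rw [h, II_succ, II_succ, II_succ]
  ring

/-- normalised number of cubic graphs -/
noncomputable def v (k : ℕ) : ℝ := (c (2 * k) : ℝ) * 36 ^ k / (II (3 * k) : ℝ)

theorem v_le_one (hC : S_Conf) (k : ℕ) : v k ≤ 1 := by
  unfold v
  have h0 : (0 : ℝ) < (II (3 * k) : ℝ) := by exact_mod_cast II_pos _
  rw [div_le_one h0]
  exact_mod_cast hC k

theorem v_nonneg (k : ℕ) : 0 ≤ v k := by
  unfold v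
  positivity

theorem v_step (hR : S_Rec) (k : ℕ) (hk : 1 ≤ k) :
    v k * (2 * (k : ℝ) - 1) ^ 2 ≤ v (k + 1) * (2 * ((k + 1 : ℕ) : ℝ) - 1) ^ 2 := by
  have hI : (0 : ℝ) < (II (3 * k) : ℝ) := by exact_mod_cast II_pos _
  have hk' : (1 : ℝ) ≤ (k : ℝ) := by exact_mod_cast hk
  have hr : (2 * (k : ℝ) + 1) * ((c (2 * k) : ℝ) * (3 * k * (3 * k - 1))) ≤ 3 * (c (2 * k + 2) : ℝ) := by
    have h := hR k
    have h1 : (((2 * k + 1) * (c (2 * k) * (3 * k * (3 * k - 1))) : ℕ) : ℝ) ≤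
        ((3 * c (2 * k + 2) : ℕ) : ℝ) := by exact_mod_cast h
    have h2 : ((3 * k - 1 : ℕ) : ℝ) = 3 * (k : ℝ) - 1 := by
      rw [Nat.cast_sub (by omega)]; push_cast; ring
    push_cast at h1
    rw [h2] at h1
    exact h1
  unfold v
  rw [II_add_three]
  have e1 : 2 * (k + 1) = 2 * k + 2 := by ring
  rw [e1]
  push_cast
  have hD : (0 : ℝ) < (6 * (k : ℝ) + 1) * (6 * k + 3) * (6 * k + 5) := by positivity
  rw [div_mul_eq_mul_div, div_mul_eq_mul_div, div_le_div_iff₀ hI (mul_pos hI hD)]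
  have hc : (0 : ℝ) ≤ (c (2 * k) : ℝ) := by positivity
  have hp : (0 : ℝ) < (36 : ℝ) ^ k := by positivity
  -- polynomial inequality
  have hpoly : (2 * (k : ℝ) - 1) ^ 2 * ((6 * k + 1) * (6 * k + 3) * (6 * k + 5)) ≤
      12 * (2 * (k : ℝ) + 1) ^ 3 * (3 * k * (3 * k - 1)) := by
    have : 0 ≤ (2 * (k : ℝ) + 1) * (3 * (96 * (k : ℝ) ^ 3 + 76 * k ^ 2 - 28 * k - 5)) := by
      have h96 : 0 ≤ 96 * (k : ℝ) ^ 3 + 76 * k ^ 2 - 28 * k - 5 := by nlinarith [hk', sq_nonneg ((k : ℝ) - 1), pow_le_pow_left₀ (by norm_num) hk' 3]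
      positivity
    nlinarith [this]
  have h3 : (c (2 * k) : ℝ) * ((2 * (k : ℝ) - 1) ^ 2 * ((6 * k + 1) * (6 * k + 3) * (6 * k + 5))) ≤
      36 * (c (2 * k + 2) : ℝ) * (2 * (k : ℝ) + 1) ^ 2 := by
    calc (c (2 * k) : ℝ) * ((2 * (k : ℝ) - 1) ^ 2 * ((6 * k + 1) * (6 * k + 3) * (6 * k + 5)))
        ≤ (c (2 * k) : ℝ) * (12 * (2 * (k : ℝ) + 1) ^ 3 * (3 * k * (3 * k - 1))) :=
          mul_le_mul_of_nonneg_left hpoly hc
      _ = 12 * (2 * (k : ℝ) + 1) ^ 2 * ((2 * (k : ℝ) + 1) * ((c (2 * k) : ℝ) * (3 * k * (3 * k - 1)))) := by ring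
      _ ≤ 12 * (2 * (k : ℝ) + 1) ^ 2 * (3 * (c (2 * k + 2) : ℝ)) :=
          mul_le_mul_of_nonneg_left hr (by positivity)
      _ = 36 * (c (2 * k + 2) : ℝ) * (2 * (k : ℝ) + 1) ^ 2 := by ring
  calc (c (2 * k) : ℝ) * 36 ^ k * (2 * (k : ℝ) - 1) ^ 2 * ((II (3 * k) : ℝ) * ((6 * k + 1) * (6 * k + 3) * (6 * k + 5)))
      = 36 ^ k * (II (3 * k) : ℝ) * ((c (2 * k) : ℝ) * ((2 * (k : ℝ) - 1) ^ 2 * ((6 * k + 1) * (6 * k + 3) * (6 * k + 5)))) := by ring
    _ ≤ 36 ^ k * (II (3 * k) : ℝ) * (36 * (c (2 * k + 2) : ℝ) * (2 * (k : ℝ) + 1) ^ 2) :=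
        mul_le_mul_of_nonneg_left h3 (by positivity)
    _ = (c (2 * k + 2) : ℝ) * 36 ^ (k + 1) * (2 * ((k : ℝ) + 1) - 1) ^ 2 * (II (3 * k) : ℝ) := by ring

theorem v_mono (hR : S_Rec) (k l : ℕ) (hk : 1 ≤ k) (hkl : k ≤ l) :
    v k * (2 * (k : ℝ) - 1) ^ 2 ≤ v l * (2 * (l : ℝ) - 1) ^ 2 := by
  induction l, hkl using Nat.le_induction with
  | base => exact le_refl _
  | succ l hl ih => exact ih.trans (v_step hR l (by omega))

theorem v_nine (hR : S_Rec) (k l : ℕ) (hk : 1 ≤ k) (hkl : k ≤ l) (hlk : l ≤ 2 * k) :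
    v k ≤ 9 * v l := by
  have h := v_mono hR k l hk hkl
  have hk' : (1 : ℝ) ≤ (k : ℝ) := by exact_mod_cast hk
  have hl' : (l : ℝ) ≤ 2 * (k : ℝ) := by exact_mod_cast hlk
  have hkl' : (k : ℝ) ≤ (l : ℝ) := by exact_mod_cast hkl
  have h1 : (2 * (l : ℝ) - 1) ^ 2 ≤ 9 * (2 * (k : ℝ) - 1) ^ 2 := by
    have h2 : 0 ≤ 2 * (l : ℝ) - 1 := by linarith
    have h3 : 2 * (l : ℝ) - 1 ≤ 3 * (2 * (k : ℝ) - 1) := by linarith
    calc (2 * (l : ℝ) - 1) ^ 2 ≤ (3 * (2 * (k : ℝ) - 1)) ^ 2 := pow_le_pow_left₀ h2 h3 2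
      _ = _ := by ring
  have h4 : (0 : ℝ) < (2 * (k : ℝ) - 1) ^ 2 := by
    have : (0 : ℝ) < 2 * (k : ℝ) - 1 := by linarith
    positivity
  have h5 : v k * (2 * (k : ℝ) - 1) ^ 2 ≤ (9 * v l) * (2 * (k : ℝ) - 1) ^ 2 := by
    calc v k * (2 * (k : ℝ) - 1) ^ 2 ≤ v l * (2 * (l : ℝ) - 1) ^ 2 := h
      _ ≤ v l * (9 * (2 * (k : ℝ) - 1) ^ 2) := mul_le_mul_of_nonneg_left h1 (v_nonneg l)
      _ = _ := by ring
  exact le_of_mul_le_mul_right h5 h4

theorem T_step (l a : ℕ) (h : 2 * (a + 1) ≤ l) : T l (a + 1) ≤ T l a := by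
  obtain ⟨d, rfl⟩ : ∃ d, l = 2 * a + 2 + d := ⟨l - (2 * a + 2), by omega⟩
  unfold T
  have hI : (0 : ℝ) < (II (3 * (2 * a + 2 + d)) : ℝ) := by exact_mod_cast II_pos _
  rw [div_le_div_iff_of_pos_right hI]
  have e1 : 2 * a + 2 + d - a = (a + 1 + d) + 1 := by omega
  have e2 : 2 * a + 2 + d - (a + 1) = a + 1 + d := by omega
  rw [e1, e2, II_add_three, II_add_three]
  have hch : ((2 * (2 * a + 2 + d)).choose (2 * (a + 1)) : ℝ) * ((2 * a + 1) * (2 * a + 2)) =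
      ((2 * (2 * a + 2 + d)).choose (2 * a) : ℝ) * ((2 * a + 4 + 2 * d) * (2 * a + 3 + 2 * d)) := by
    have h1 := Nat.choose_succ_right_eq (2 * (2 * a + 2 + d)) (2 * a)
    have h2 := Nat.choose_succ_right_eq (2 * (2 * a + 2 + d)) (2 * a + 1)
    have e3 : 2 * (2 * a + 2 + d) - 2 * a = 2 * a + 4 + 2 * d := by omega
    have e4 : 2 * (2 * a + 2 + d) - (2 * a + 1) = 2 * a + 3 + 2 * d := by omega
    rw [e3] at h1
    rw [e4] at h2
    have h1' : ((2 * (2 * a + 2 + d)).choose (2 * a + 1) : ℝ) * (2 * a + 1) =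
        ((2 * (2 * a + 2 + d)).choose (2 * a) : ℝ) * (2 * a + 4 + 2 * d) := by exact_mod_cast h1
    have h2' : ((2 * (2 * a + 2 + d)).choose (2 * a + 1 + 1) : ℝ) * (2 * a + 1 + 1) =
        ((2 * (2 * a + 2 + d)).choose (2 * a + 1) : ℝ) * (2 * a + 3 + 2 * d) := by exact_mod_cast h2
    have e5 : 2 * (a + 1) = 2 * a + 1 + 1 := by ring
    rw [e5]
    linear_combination (2 * (a : ℝ) + 1) * h2' + (2 * (a : ℝ) + 3 + 2 * d) * h1'
  set X : ℝ := ((2 * (2 * a + 2 + d)).choose (2 * a) : ℝ)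
  set Y : ℝ := ((2 * (2 * a + 2 + d)).choose (2 * (a + 1)) : ℝ)
  set P : ℝ := (II (3 * a) : ℝ)
  set Q : ℝ := (II (3 * (a + 1 + d)) : ℝ)
  push_cast
  have hX : 0 ≤ X := by positivity
  have hP : 0 ≤ P := by positivity
  have hQ : 0 ≤ Q := by positivity
  have hpos : (0 : ℝ) < (2 * a + 1) * (2 * a + 2) := by positivity
  have key : ((2 * (a : ℝ) + 4 + 2 * d) * (2 * a + 3 + 2 * d)) * ((6 * a + 1) * (6 * a + 3) * (6 * a + 5)) ≤
      ((2 * a + 1) * (2 * a + 2)) * ((6 * ((a : ℝ) + 1 + d) + 1) * (6 * (a + 1 + d) + 3) * (6 * (a + 1 + d) + 5)) := by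
    have ha : (0 : ℝ) ≤ a := by positivity
    have hd : (0 : ℝ) ≤ d := by positivity
    have h6 : 0 ≤ (2 * (a : ℝ) + 1) * (2 * a + 3 + 2 * d) * (36 * (a + 2 + d) * (a + 1) - 5) * (1 + d) := by
      have : 0 ≤ 36 * ((a : ℝ) + 2 + d) * (a + 1) - 5 := by nlinarith [mul_nonneg ha ha, mul_nonneg ha hd]
      positivity
    nlinarith [h6]
  refine le_of_mul_le_mul_right ?_ hpos
  calc Y * (P * ((6 * a + 1) * (6 * a + 3) * (6 * a + 5))) * Q * ((2 * a + 1) * (2 * a + 2))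
      = (Y * ((2 * a + 1) * (2 * a + 2))) * (P * Q) * ((6 * a + 1) * (6 * a + 3) * (6 * a + 5)) := by ring
    _ = X * (P * Q) * (((2 * (a : ℝ) + 4 + 2 * d) * (2 * a + 3 + 2 * d)) * ((6 * a + 1) * (6 * a + 3) * (6 * a + 5))) := by
        rw [hch]; ring
    _ ≤ X * (P * Q) * (((2 * a + 1) * (2 * a + 2)) * ((6 * ((a : ℝ) + 1 + d) + 1) * (6 * (a + 1 + d) + 3) * (6 * (a + 1 + d) + 5))) :=
        mul_le_mul_of_nonneg_left key (by positivity)
    _ = _ := by ring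

theorem T_anti (l a : ℕ) (ha : 2 ≤ a) (h : 2 * a ≤ l) : T l a ≤ T l 2 := by
  induction a, ha using Nat.le_induction with
  | base => exact le_refl _
  | succ a ha ih => exact (T_step l a h).trans (ih (by omega))

theorem T_two (l : ℕ) (hl : 11 ≤ l) : T l 2 ≤ 1 / (l : ℝ) ^ 2 := by
  obtain ⟨m, rfl⟩ : ∃ m, l = m + 2 := ⟨l - 2, by omega⟩
  have hm : (9 : ℝ) ≤ (m : ℝ) := by exact_mod_cast (by omega : 9 ≤ m)
  unfold T
  have e1 : m + 2 - 2 = m := by omega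
  have e2 : 3 * (m + 2) = 3 * ((m + 1) + 1) := by ring
  have h6 : II (3 * 2) = 10395 := by decide
  rw [e1, e2, h6, II_add_three (m + 1), II_add_three m]
  have hch : ((2 * (m + 2)).choose (2 * 2) : ℝ) * 24 =
      (2 * m + 4) * (2 * m + 3) * (2 * m + 2) * (2 * m + 1) := by
    have h0 := Nat.choose_succ_right_eq (2 * (m + 2)) 0
    have h1 := Nat.choose_succ_right_eq (2 * (m + 2)) 1
    have h2 := Nat.choose_succ_right_eq (2 * (m + 2)) 2
    have h3 := Nat.choose_succ_right_eq (2 * (m + 2)) 3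
    have a0 : 2 * (m + 2) - 0 = 2 * m + 4 := by omega
    have a1 : 2 * (m + 2) - 1 = 2 * m + 3 := by omega
    have a2 : 2 * (m + 2) - 2 = 2 * m + 2 := by omega
    have a3 : 2 * (m + 2) - 3 = 2 * m + 1 := by omega
    rw [a0, Nat.choose_zero_right] at h0
    rw [a1] at h1
    rw [a2] at h2
    rw [a3] at h3
    have h0' : ((2 * (m + 2)).choose 1 : ℝ) = (2 * m + 4) := by
      have : (2 * (m + 2)).choose (0 + 1) = 2 * m + 4 := by omega
      exact_mod_cast this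
    have h1' : ((2 * (m + 2)).choose 2 : ℝ) * 2 = ((2 * (m + 2)).choose 1 : ℝ) * (2 * m + 3) := by
      exact_mod_cast h1
    have h2' : ((2 * (m + 2)).choose 3 : ℝ) * 3 = ((2 * (m + 2)).choose 2 : ℝ) * (2 * m + 2) := by
      exact_mod_cast h2
    have h3' : ((2 * (m + 2)).choose 4 : ℝ) * 4 = ((2 * (m + 2)).choose 3 : ℝ) * (2 * m + 1) := by
      exact_mod_cast h3
    have : (2 * 2 : ℕ) = 4 := rfl
    rw [this]
    rw [h0'] at h1'
    linear_combination 6 * h3' + 2 * (2 * (m : ℝ) + 1) * h2' + (2 * (m : ℝ) + 1) * (2 * m + 2) * h1'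
  have hI : (0 : ℝ) < (II (3 * m) : ℝ) := by exact_mod_cast II_pos _
  set X : ℝ := ((2 * (m + 2)).choose (2 * 2) : ℝ)
  set Q : ℝ := (II (3 * m) : ℝ)
  push_cast
  have hX : X = (2 * m + 4) * (2 * m + 3) * (2 * m + 2) * (2 * m + 1) / 24 := by
    rw [eq_div_iff (by norm_num)]; exact hch
  rw [hX]
  have hm0 : (0 : ℝ) ≤ (m : ℝ) := by linarith
  have hD1 : (0 : ℝ) < (6 * (m : ℝ) + 1) * (6 * m + 3) * (6 * m + 5) := by positivity
  have hD2 : (0 : ℝ) < (6 * ((m : ℝ) + 1) + 1) * (6 * (m + 1) + 3) * (6 * (m + 1) + 5) := by positivity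
  rw [div_le_div_iff₀ (by positivity) (by positivity)]
  -- reduce to a polynomial inequality
  have hpoly : 10395 / 24 * ((2 * (m : ℝ) + 4) * (2 * m + 3) * (2 * m + 2) * (2 * m + 1)) * ((m : ℝ) + 2) ^ 2 ≤
      (6 * (m : ℝ) + 1) * (6 * m + 3) * (6 * m + 5) *
        ((6 * ((m : ℝ) + 1) + 1) * (6 * (m + 1) + 3) * (6 * (m + 1) + 5)) := by
    have hq : 10395 / 24 * ((2 * (m : ℝ) + 4) * (2 * m + 2)) * ((m : ℝ) + 2) ^ 2 ≤
        9 * ((6 * (m : ℝ) + 1) * (6 * m + 5) * ((6 * ((m : ℝ) + 1) + 1) * (6 * (m + 1) + 5))) := by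
      have h9 : (0 : ℝ) ≤ (m : ℝ) - 9 := by linarith
      obtain ⟨x, hx⟩ : ∃ x : ℝ, x = (m : ℝ) - 9 := ⟨_, rfl⟩
      have hmx : (m : ℝ) = x + 9 := by linarith
      have hx0 : 0 ≤ x := by rw [hx]; exact h9
      rw [hmx]
      nlinarith [pow_nonneg hx0 2, pow_nonneg hx0 3, pow_nonneg hx0 4, hx0]
    have h13 : (0 : ℝ) ≤ (2 * (m : ℝ) + 3) * (2 * m + 1) := by positivity
    calc 10395 / 24 * ((2 * (m : ℝ) + 4) * (2 * m + 3) * (2 * m + 2) * (2 * m + 1)) * ((m : ℝ) + 2) ^ 2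
        = (10395 / 24 * ((2 * (m : ℝ) + 4) * (2 * m + 2)) * ((m : ℝ) + 2) ^ 2) * ((2 * (m : ℝ) + 3) * (2 * m + 1)) := by ring
      _ ≤ (9 * ((6 * (m : ℝ) + 1) * (6 * m + 5) * ((6 * ((m : ℝ) + 1) + 1) * (6 * (m + 1) + 5)))) * ((2 * (m : ℝ) + 3) * (2 * m + 1)) :=
          mul_le_mul_of_nonneg_right hq h13
      _ = _ := by ring
  calc (2 * (m : ℝ) + 4) * (2 * m + 3) * (2 * m + 2) * (2 * m + 1) / 24 * 10395 * Q * ((m : ℝ) + 2) ^ 2
      = Q * (10395 / 24 * ((2 * (m : ℝ) + 4) * (2 * m + 3) * (2 * m + 2) * (2 * m + 1)) * ((m : ℝ) + 2) ^ 2) := by ring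
    _ ≤ Q * ((6 * (m : ℝ) + 1) * (6 * m + 3) * (6 * m + 5) *
        ((6 * ((m : ℝ) + 1) + 1) * (6 * (m + 1) + 3) * (6 * (m + 1) + 5))) :=
        mul_le_mul_of_nonneg_left hpoly hI.le
    _ = _ := by ring

/-- one term of the union bound -/
theorem term_bound (hC : S_Conf) (hR : S_Rec) (l s : ℕ) (hl : 11 ≤ l) (hs1 : 1 ≤ s) (hs : s ≤ l) :
    (((2 * l).choose s * (c s * c (2 * l - s)) : ℕ) : ℝ) ≤ 9 / (l : ℝ) ^ 2 * (c (2 * l) : ℝ) := by
  have hl0 : (0 : ℝ) < (l : ℝ) := by exact_mod_cast (by omega : 0 < l)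
  have hR0 : (0 : ℝ) ≤ 9 / (l : ℝ) ^ 2 * (c (2 * l) : ℝ) := by positivity
  rcases Nat.even_or_odd s with he | ho
  · obtain ⟨a, ha⟩ := he
    have ha2 : s = 2 * a := by omega
    subst ha2
    by_cases ha1 : a = 1
    · subst ha1
      have : c (2 * 1) = 0 := p_Small (Fin (2 * 1)) (by simp) (by simp)
      rw [this]
      simpa using hR0
    · have ha2 : 2 ≤ a := by omega
      have e1 : 2 * l - 2 * a = 2 * (l - a) := by omega
      rw [e1]
      have hv1 := v_le_one hC a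
      have hv9 := v_nine hR (l - a) l (by omega) (by omega) (by omega)
      have hT := (T_anti l a ha2 (by omega)).trans (T_two l hl)
      have hIa : (0 : ℝ) < (II (3 * a) : ℝ) := by exact_mod_cast II_pos _
      have hIb : (0 : ℝ) < (II (3 * (l - a)) : ℝ) := by exact_mod_cast II_pos _
      have hIl : (0 : ℝ) < (II (3 * l) : ℝ) := by exact_mod_cast II_pos _
      have c1 : (c (2 * a) : ℝ) = v a * (II (3 * a) : ℝ) / 36 ^ a := by
        unfold v; field_simp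
      have c2 : (c (2 * (l - a)) : ℝ) = v (l - a) * (II (3 * (l - a)) : ℝ) / 36 ^ (l - a) := by
        unfold v; field_simp
      have c3 : (c (2 * l) : ℝ) = v l * (II (3 * l) : ℝ) / 36 ^ l := by
        unfold v; field_simp
      have hpow : (36 : ℝ) ^ l = 36 ^ a * 36 ^ (l - a) := by
        rw [← pow_add]; congr 1; omega
      have hvv : v a * v (l - a) ≤ 9 * v l := by
        calc v a * v (l - a) ≤ 1 * v (l - a) := mul_le_mul_of_nonneg_right hv1 (v_nonneg _)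
          _ ≤ 9 * v l := by rw [one_mul]; exact hv9
      have hp1 : (0 : ℝ) < (36 : ℝ) ^ a := by positivity
      have hp2 : (0 : ℝ) < (36 : ℝ) ^ (l - a) := by positivity
      push_cast
      rw [c1, c2]
      have hTl : ((2 * l).choose (2 * a) : ℝ) * (II (3 * a) : ℝ) * (II (3 * (l - a)) : ℝ) =
          T l a * (II (3 * l) : ℝ) := by
        unfold T; field_simp
      have hT0 : 0 ≤ T l a := by unfold T; positivity
      calc ((2 * l).choose (2 * a) : ℝ) * (v a * (II (3 * a) : ℝ) / 36 ^ a *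
            (v (l - a) * (II (3 * (l - a)) : ℝ) / 36 ^ (l - a)))
          = (v a * v (l - a)) * (((2 * l).choose (2 * a) : ℝ) * (II (3 * a) : ℝ) * (II (3 * (l - a)) : ℝ)) /
              36 ^ l := by rw [hpow]; field_simp
        _ = (v a * v (l - a)) * (T l a * (II (3 * l) : ℝ) / 36 ^ l) := by rw [hTl]; ring
        _ ≤ (9 * v l) * (T l a * (II (3 * l) : ℝ) / 36 ^ l) :=
            mul_le_mul_of_nonneg_right hvv (by positivity)
        _ = 9 * T l a * (c (2 * l) : ℝ) := by rw [c3]; ring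
        _ ≤ 9 * (1 / (l : ℝ) ^ 2) * (c (2 * l) : ℝ) := by
            have : 0 ≤ (c (2 * l) : ℝ) := by positivity
            exact mul_le_mul_of_nonneg_right (mul_le_mul_of_nonneg_left hT (by norm_num)) this
        _ = _ := by ring
  · have : c s = 0 := p_Odd (Fin s) (by simpa using ho)
    rw [this]
    simpa using hR0

/-- the final of section (G-e) -/
theorem final (hC : S_Conf) (hR : S_Rec) (hS : S_Split) : S_Conn := by
  unfold S_Conn
  filter_upwards [Filter.eventually_ge_atTop 90] with l hl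
  refine ⟨c_pos hR l (by omega), ?_⟩
  have hl0 : (0 : ℝ) < (l : ℝ) := by exact_mod_cast (by omega : 0 < l)
  have hl90 : (90 : ℝ) ≤ (l : ℝ) := by exact_mod_cast hl
  have h := hS (2 * l) (by omega)
  have e : 2 * l / 2 = l := by omega
  rw [e] at h
  calc ((((cubs (Fin (2 * l))).filter fun G => ¬ G.Connected).card : ℕ) : ℝ)
      ≤ ((∑ s ∈ Icc 1 l, (2 * l).choose s * (c s * c (2 * l - s)) : ℕ) : ℝ) := by exact_mod_cast h
    _ = ∑ s ∈ Icc 1 l, (((2 * l).choose s * (c s * c (2 * l - s)) : ℕ) : ℝ) := by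
        rw [Nat.cast_sum]
    _ ≤ ∑ _s ∈ Icc 1 l, 9 / (l : ℝ) ^ 2 * (c (2 * l) : ℝ) := by
        refine Finset.sum_le_sum fun s hs => ?_
        rw [Finset.mem_Icc] at hs
        exact term_bound hC hR l s (by omega) hs.1 hs.2
    _ = 9 / (l : ℝ) * (c (2 * l) : ℝ) := by
        rw [Finset.sum_const, Nat.card_Icc, nsmul_eq_mul]
        have : ((l + 1 - 1 : ℕ) : ℝ) = (l : ℝ) := by simp
        rw [this]
        field_simp
    _ ≤ (1 / 10 : ℝ) * (c (2 * l) : ℝ) := by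
        have h1 : 9 / (l : ℝ) ≤ 1 / 10 := by
          rw [div_le_div_iff₀ hl0 (by norm_num)]; linarith
        exact mul_le_mul_of_nonneg_right h1 (by positivity)

end Pool.Agent.Lib.MP_fce888_co.GE
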