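import Mathlib

set_option autoImplicit false

/-!
# MP_fce888_co, section (G-e): positive number of cubic graphs and connectivity

Owner: helper2.  Target `S_Conn`.  Conventions: `open scoped Classical`, no `[DecidableEq V]`.

Notation: `c m` = number of cubic graphs on `Fin m`; `II k = (2k-1)!!` = number of perfect matchings of
`2k` points.

Pieces: `S_Equiv`, `S_Odd`, `S_Small`, `S_Conf`, `S_Ins`, `S_Rec`, `S_Split`, numerics, final.
-/

namespace Pool.Agent.Lib.MP_fce888_co.GE

open Finset
open scoped Classical

/-- the cubic graphs on `V` -/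
noncomputable def cubs (V : Type) [Fintype V] : Finset (SimpleGraph V) :=
  univ.filter fun G => ∀ v, (G.neighborSet v).ncard = 3

/-- the number of cubic graphs on `Fin m` -/
noncomputable def c (m : ℕ) : ℕ := (cubs (Fin m)).card

/-- `(2k-1)!!`, the number of perfect matchings of `2k` points -/
def II (k : ℕ) : ℕ := ∏ i ∈ range k, (2 * i + 1)

/-- Transport along a bijection `V ≃ W` (`Equiv.simpleGraph`). -/
def S_Equiv : Prop := ∀ (V W : Type) [Fintype V] [Fintype W],
  Fintype.card V = Fintype.card W → (cubs V).card = (cubs W).card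

/-- Handshake lemma: `3 |V| = 2 |E|`. -/
def S_Odd : Prop := ∀ (V : Type) [Fintype V], Odd (Fintype.card V) → (cubs V).card = 0

/-- A cubic graph has no vertex or at least 4 vertices (`v` and its three neighbours). -/
def S_Small : Prop := ∀ (V : Type) [Fintype V], 0 < Fintype.card V → Fintype.card V ≤ 3 →
  (cubs V).card = 0

/-- CONFIGURATIONS (upper bound for the number of cubic graphs).

Proof.  Let `V = Fin (2k)`, `X = V × Fin 3`, so `|X| = 6k`, and let `P` be the set of `f : Equiv.Perm X`
with `f (f p) = p` and `f p ≠ p` for all `p`.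

(1) `|P| = II (3k)`: a fixed point free involution has `cycleType = Multiset.replicate (3k) 2`
(`Equiv.Perm.cycleType_prime_order` or directly: all cycles have length 2 and there are no fixed points),
so by `Equiv.Perm.card_of_cycleType` the number is `(6k)! / (0! * 2^(3k) * (3k)!) = II (3k)`.
(Or by induction on the size of a finite type: choose the partner of one point.)  Only `≤` is needed.

(2) For every cubic `G` and every `v` choose a bijection `λ_v : Fin 3 ≃ G.neighborSet v`.  For `G` cubic and
`τ : V → Equiv.Perm (Fin 3)` (there are `6^(2k) = 36^k` such `τ`) define `f = f_{G,τ}` by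
`f (v, i) = (w, j)` where `w = λ_v (τ_v i)` (a neighbour of `v`, so `v ∈ N(w)`) and `j` is the index with
`λ_w (τ_w j) = v`.  Then `f (w, j) = (v, i)`, and `w ≠ v`, so `f ∈ P`.
The map `(G, τ) ↦ f` is injective: `G.Adj v w ↔ ∃ i, (f (v, i)).1 = w`, and then
`λ_v (τ_v i) = (f (v, i)).1` determines `τ_v`.  Hence `c (2k) * 36^k ≤ |P|`. -/
def S_Conf : Prop := ∀ k : ℕ, c (2 * k) * 36 ^ k ≤ II (3 * k)

/-- INSERTION of an edge.

Proof.  Put `V = Option (Option W)`, `x = none`, `y = some none`, and identify `w : W` with
`some (some w)`.  A cubic graph `H` on `W` has `3k` edges (handshake), so there are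
`|cubs W| * (3k) * (3k-1)` triples `(H, e, f)` with `H` cubic on `W`, `e, f ∈ H.edgeSet`, `e ≠ f`.
To a triple associate the graph `G` on `V` with
* `G.Adj x y`;
* `G.Adj x w ↔ w ∈ e`, `G.Adj y w ↔ w ∈ f`;
* `G.Adj w w' ↔ H.Adj w w' ∧ s(w, w') ≠ e ∧ s(w, w') ≠ f`.
`G` is cubic: `x` and `y` have degree `1 + 2`; a vertex `w ∈ W` loses the edges among `e, f` containing it
(two different edges) and gains the same number of edges to `x, y`.  The map is injective:
`w ∈ e ↔ G.Adj x w` determines `e` (`Sym2.ext`), in the same way `f`, and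
`H.Adj w w' ↔ G.Adj w w' ∨ s(w, w') = e ∨ s(w, w') = f`. -/
def S_Ins : Prop := ∀ (W : Type) [Fintype W] (k : ℕ), Fintype.card W = 2 * k →
  (cubs W).card * (3 * k * (3 * k - 1)) ≤
    ((cubs (Option (Option W))).filter fun G => G.Adj none (some none)).card

/-- RECURSION.

Proof (from `S_Equiv` and `S_Ins`).  Let `W = Fin (2k)`, `V = Option (Option W)`; so
`|cubs V| = c (2k+2)` by `S_Equiv`.  Count the pairs `(G, y)` with `G` cubic on `V` and `G.Adj none y`: it is
`3 |cubs V|`, and it is the sum over the `2k+1` elements `y ≠ none` of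
`#{G ∈ cubs V | G.Adj none y}`, which by the permutation `Equiv.swap y (some none)` (fixing `none`) is the
same number for every `y ≠ none`.  So `3 * c (2k+2) = (2k+1) * #{G ∈ cubs V | G.Adj none (some none)}`. -/
def S_Rec : Prop := ∀ k : ℕ, (2 * k + 1) * (c (2 * k) * (3 * k * (3 * k - 1))) ≤ 3 * c (2 * k + 2)

/-- DISCONNECTED graphs.

Proof.  Let `G` be cubic on `Fin n`, not connected, `n ≥ 1`.  Then there is a set `S` of vertices, with
`1 ≤ |S| ≤ n/2`, without edges of `G` between `S` and its complement (take the component of some vertex, or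
its complement, which is not empty).  For fixed `S` the cubic `G` without edges between `S` and `Sᶜ` are
determined by the two induced graphs on `S` and `Sᶜ`, which are cubic, so their number is at most
`c |S| * c (n - |S|)` (use `S_Equiv`).  There are `n.choose s` sets of size `s`
(`Finset.card_powersetCard`). -/
def S_Split : Prop := ∀ n : ℕ, 0 < n →
  ((cubs (Fin n)).filter fun G => ¬ G.Connected).card ≤
    ∑ s ∈ Icc 1 (n / 2), n.choose s * (c s * c (n - s))

/-- numerics: `T l a = C(2l,2a) II(3a) II(3(l-a)) / II(3l)` -/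
noncomputable def T (l a : ℕ) : ℝ :=
  ((2 * l).choose (2 * a) : ℝ) * (II (3 * a) : ℝ) * (II (3 * (l - a)) : ℝ) / (II (3 * l) : ℝ)

/-- THE TARGET. -/
def S_Conn : Prop := ∀ᶠ j : ℕ in Filter.atTop, 0 < c (2 * j) ∧
  ((((cubs (Fin (2 * j))).filter fun G => ¬ G.Connected).card : ℕ) : ℝ) ≤ (1 / 10 : ℝ) * (c (2 * j) : ℝ)

end Pool.Agent.Lib.MP_fce888_co.GE
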